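import Mathlib
import Pool.Agent.S08099

/-!
# Three members of a set family covering the ground set: the exact degree threshold

`S` is any finite nonempty set with `n` elements (for instance `{1, ..., n}`), and a family is any
set `F` of subsets of `S`.  If every element of `S` lies in more than `2 ^ (n - 4)` members of `F`
(a real number when `n < 4`), then three members of `F`, repetitions allowed, have union `S`.
Moreover the largest `d` for which some family without three covering members has all degrees at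
least `d` is exactly the integer part of `2 ^ n / 16`, for every `n` at least `1`.
-/

set_option autoImplicit false

namespace Pool.Agent.Results.MP_36bd7d_co.ExactDegreeThreshold

open Set

/-- The degree of `i` in the family `F`: the number of members of `F` that contain `i`. -/
noncomputable def degree {S : Type*} (F : Set (Set S)) (i : S) : ℕ :=
  {A : Set S | A ∈ F ∧ i ∈ A}.ncard

/-- Some three members of `F`, repetitions allowed, have union the whole ground set. -/
def ThreeCover {S : Type*} (F : Set (Set S)) : Prop :=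
  ∃ X ∈ F, ∃ Y ∈ F, ∃ Z ∈ F, X ∪ Y ∪ Z = Set.univ

/-- The affirmative answer, transported from `Fin n` to any finite nonempty set. -/
theorem cover {S : Type*} [Finite S] [Nonempty S] (F : Set (Set S))
    (hdeg : ∀ i : S, (2 : ℝ) ^ ((Nat.card S : ℤ) - 4) < (degree F i : ℝ)) : ThreeCover F := by
  classical
  obtain ⟨e⟩ : Nonempty (S ≃ Fin (Nat.card S)) := ⟨Finite.equivFin S⟩
  have hn : 1 ≤ Nat.card S := Nat.card_pos
  set n := Nat.card S with hnS
  let G : Finset (Finset (Fin n)) := Finset.univ.filter (fun A => {s : S | e s ∈ A} ∈ F)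
  have hdeg' : ∀ i : Fin n, (2 : ℝ) ^ ((n : ℤ) - 4) <
      (((G.filter (fun A => i ∈ A)).card : ℕ) : ℝ) := by
    intro i
    have h := hdeg (e.symm i)
    have hle : degree F (e.symm i) ≤ (G.filter (fun A => i ∈ A)).card := by
      rw [← Set.ncard_coe_finset]
      refine Set.ncard_le_ncard_of_injOn (fun A : Set S => Finset.univ.filter
        (fun j : Fin n => e.symm j ∈ A)) ?_ ?_ (Finset.finite_toSet _)
      · intro A hA
        have hA1 : A ∈ F := hA.1
        have hA2 : e.symm i ∈ A := hA.2
        simp only [Finset.coe_filter, Finset.mem_filter, Finset.mem_univ, true_and, G,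
          Set.mem_ofPred_eq, Equiv.symm_apply_apply]
        exact ⟨hA1, hA2⟩
      · intro A _ B _ hAB
        ext s
        have h1 := congrArg (fun X : Finset (Fin n) => e s ∈ X) hAB
        simpa using h1
    exact lt_of_lt_of_le h (by exact_mod_cast hle)
  obtain ⟨X, hX, Y, hY, Z, hZ, hU⟩ := Pool.Agent.S08099.result n hn G hdeg'
  refine ⟨{s : S | e s ∈ X}, ?_, {s : S | e s ∈ Y}, ?_, {s : S | e s ∈ Z}, ?_, ?_⟩
  · exact (Finset.mem_filter.1 hX).2
  · exact (Finset.mem_filter.1 hY).2
  · exact (Finset.mem_filter.1 hZ).2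
  · ext s
    have : e s ∈ X ∪ Y ∪ Z := by rw [hU]; exact Finset.mem_univ _
    simpa [or_assoc] using this

/-- The members of the extremal family through `i`, one for each subset of the complement of
the four chosen elements `T`. -/
def push {S : Type*} (T : Set S) (t₀ i : S) (B : Set {s : S // s ∉ T}) : Set S :=
  {s : S | (∃ h : s ∉ T, (⟨s, h⟩ : {s : S // s ∉ T}) ∈ B) ∨ s = i ∨
    (s = t₀ ∧ i ∉ T ∧ ∀ h : i ∉ T, (⟨i, h⟩ : {s : S // s ∉ T}) ∉ B)}

theorem push_injective {S : Type*} (T : Set S) (t₀ i : S) (ht₀ : t₀ ∈ T) :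
    Function.Injective (push T t₀ i) := by
  intro B C hBC
  have key : ∀ s : S, s ∈ push T t₀ i B ↔ s ∈ push T t₀ i C := fun s => by rw [hBC]
  ext ⟨s, hs⟩
  by_cases hsi : s = i
  · subst hsi
    have h := key t₀
    have hne : t₀ ≠ s := fun h' => hs (h' ▸ ht₀)
    simp only [push, Set.mem_ofPred_eq, ht₀, not_true_eq_false, IsEmpty.exists_iff, false_or,
      hne, true_and, hs, not_false_eq_true] at h
    exact not_iff_not.1 ⟨fun a => h.1 (fun _ => a) trivial, fun a => h.2 (fun _ => a) trivial⟩
  · have h := key s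
    have hne : s ≠ t₀ := fun h' => hs (h' ▸ ht₀)
    simpa only [push, Set.mem_ofPred_eq, hs, not_false_eq_true, exists_true_left, hsi, hne,
      false_and, or_false] using h

/-- The classical family of all sets meeting `T` in at most one element has all degrees at least
the number of subsets of the complement of `T`. -/
theorem le_degree {S : Type*} [Finite S] (T : Set S) (t₀ i : S) (ht₀ : t₀ ∈ T) :
    2 ^ (Nat.card {s : S // s ∉ T}) ≤ degree {A : Set S | (A ∩ T).Subsingleton} i := by
  classical
  have h1 : Nat.card (Set {s : S // s ∉ T}) = 2 ^ (Nat.card {s : S // s ∉ T}) := by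
    have := Fintype.ofFinite {s : S // s ∉ T}
    rw [Nat.card_eq_fintype_card, Fintype.card_set, Nat.card_eq_fintype_card]
  rw [← h1, degree, ← Set.ncard_univ (Set {s : S // s ∉ T})]
  refine Set.ncard_le_ncard_of_injOn (push T t₀ i) ?_
    ((push_injective T t₀ i ht₀).injOn) (Set.toFinite _)
  intro B _
  refine ⟨?_, ?_⟩
  · intro x hx y hy
    obtain ⟨hx1, hxT⟩ := hx
    obtain ⟨hy1, hyT⟩ := hy
    simp only [push, Set.mem_ofPred_eq, hxT, hyT, not_true_eq_false, IsEmpty.exists_iff,
      false_or] at hx1 hy1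
    rcases hx1 with rfl | ⟨rfl, hx2, _⟩ <;> rcases hy1 with rfl | ⟨rfl, hy2, _⟩
    · rfl
    · exact absurd hxT hy2
    · exact absurd hyT hx2
    · rfl
  · simp [push]

/-- Three sets that each meet the four-element set `T` in at most one element do not cover. -/
theorem no_cover {S : Type*} [Finite S] (T : Set S) (hT : T.ncard = 4) :
    ¬ ThreeCover {A : Set S | (A ∩ T).Subsingleton} := by
  rintro ⟨X, hX, Y, hY, Z, hZ, hU⟩
  have h1 : T = (X ∩ T) ∪ (Y ∩ T) ∪ (Z ∩ T) := by
    rw [← Set.union_inter_distrib_right, ← Set.union_inter_distrib_right, hU, Set.univ_inter]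
  have hle : ∀ A : Set S, (A ∩ T).Subsingleton → (A ∩ T).ncard ≤ 1 := fun A hA =>
    (Set.ncard_le_one (Set.toFinite _)).2 (fun a ha b hb => hA ha hb)
  have h2 := Set.ncard_union_le ((X ∩ T) ∪ (Y ∩ T)) (Z ∩ T)
  have h3 := Set.ncard_union_le (X ∩ T) (Y ∩ T)
  rw [← h1, hT] at h2
  have := hle X hX
  have := hle Y hY
  have := hle Z hZ
  omega

theorem result (S : Type*) [Finite S] [Nonempty S] :
    (∀ F : Set (Set S), (∀ i : S, (2 : ℝ) ^ ((Nat.card S : ℤ) - 4) < (degree F i : ℝ)) →
      ThreeCover F) ∧
    IsGreatest {d : ℕ | ∃ F : Set (Set S), ¬ ThreeCover F ∧ ∀ i : S, d ≤ degree F i}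
      (2 ^ Nat.card S / 16) := by
  refine ⟨fun F hF => cover F hF, ?_, ?_⟩
  · rcases Nat.lt_or_ge (Nat.card S) 4 with h4 | h4
    · refine ⟨∅, ?_, ?_⟩
      · rintro ⟨X, hX, _⟩
        exact hX
      · intro i
        have : 2 ^ Nat.card S / 16 = 0 := by
          apply Nat.div_eq_of_lt
          calc 2 ^ Nat.card S < 2 ^ 4 := Nat.pow_lt_pow_right (by norm_num) h4
            _ = 16 := by norm_num
        rw [this]
        exact Nat.zero_le _
    · obtain ⟨T, -, hT⟩ : ∃ T : Set S, T ⊆ Set.univ ∧ T.ncard = 4 :=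
        Set.exists_subset_card_eq (by rw [Set.ncard_univ]; exact h4)
      have hne : T.Nonempty := by
        rw [← Set.ncard_pos (Set.toFinite T), hT]; norm_num
      obtain ⟨t₀, ht₀⟩ := hne
      refine ⟨{A : Set S | (A ∩ T).Subsingleton}, no_cover T hT, fun i => ?_⟩
      have hc : Nat.card {s : S // s ∉ T} = Nat.card S - 4 := by
        have h := Set.ncard_add_ncard_compl T
        have h' : (Tᶜ : Set S).ncard = Nat.card {s : S // s ∉ T} := rfl
        omega
      have h := le_degree T t₀ i ht₀
      rw [hc] at h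
      have h5 : 2 ^ Nat.card S / 16 = 2 ^ (Nat.card S - 4) := by
        have : 2 ^ Nat.card S = 2 ^ (Nat.card S - 4) * 16 := by
          rw [show (16 : ℕ) = 2 ^ 4 by norm_num, ← pow_add, Nat.sub_add_cancel h4]
        rw [this, Nat.mul_div_cancel _ (by norm_num)]
      rw [h5]
      exact h
  · rintro d ⟨F, hF, hd⟩
    by_contra hlt
    push Not at hlt
    apply hF
    apply cover F
    intro i
    have h1 : 2 ^ Nat.card S < 16 * degree F i := by
      have h2 : 2 ^ Nat.card S / 16 < degree F i := lt_of_lt_of_le hlt (hd i)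
      omega
    have h3 : ((2 : ℝ) ^ Nat.card S) < 16 * (degree F i : ℝ) := by exact_mod_cast h1
    rw [zpow_sub₀ (by norm_num : (2 : ℝ) ≠ 0), zpow_natCast,
      show ((2 : ℝ) ^ (4 : ℤ)) = 16 by norm_num, div_lt_iff₀ (by norm_num)]
    linarith

end Pool.Agent.Results.MP_36bd7d_co.ExactDegreeThreshold
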